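import Mathlib
import Pool.Agent.Shared.CookLevin

/-! Unsatisfiability as divisibility of a product of clause projectors by `2 ^ W - 1`. -/

namespace Pool.Agent.Lib.MP_4c90a8_lc.Two

open Pool.Agent.Shared.CookLevin Finset

/-- clauses with three literals -/
abbrev Cl := (Bool × ℕ) × (Bool × ℕ) × (Bool × ℕ)

section ring

variable {R : Type} [CommRing R] (q : ℕ → ℕ) (u : ℕ → R)

/-- geometric sum of a variable -/
def Ev (v : ℕ) : R := ∑ j ∈ range (q v), u v ^ j
/-- projector on the assignments making a literal false -/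
def Fv (l : Bool × ℕ) : R := cond l.1 (q l.2 - Ev q u l.2) (Ev q u l.2)
/-- scaling factor of a clause -/
def Qc (C : Cl) : ℕ := q C.1.2 * (q C.2.1.2 * q C.2.2.2)
/-- projector on the assignments making a clause true -/
def Sv (C : Cl) : R := Qc q C - Fv q u C.1 * (Fv q u C.2.1 * Fv q u C.2.2)
/-- product of the clause projectors -/
def Nv (ψ : List Cl) : R := (ψ.map (Sv q u)).prod

theorem map_Nv {R' : Type} [CommRing R'] (f : R →+* R') (ψ : List Cl) :
    f (Nv q u ψ) = Nv q (fun v => f (u v)) ψ := by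
  have h1 : ∀ v, f (Ev q u v) = Ev q (fun v => f (u v)) v := fun v => by simp [Ev]
  have h2 : ∀ l, f (Fv q u l) = Fv q (fun v => f (u v)) l := by
    rintro ⟨_ | _, v⟩ <;> simp [Fv, h1]
  unfold Nv
  rw [map_list_prod, List.map_map]
  congr 1
  refine List.map_congr_left fun C _ => ?_
  simp [Sv, h2]

/-- tautological clauses -/
def taut (n : ℕ) : List Cl := (List.range n).map fun v => ((true, v), (false, v), (true, v))

theorem Ev_idem {v : ℕ} (h : u v ^ q v = 1) : Ev q u v * (q v - Ev q u v) = 0 := by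
  have h1 : u v * Ev q u v = Ev q u v := by
    have := mul_geom_sum (u v) (q v)
    rw [h, sub_self, sub_mul, one_mul, sub_eq_zero] at this
    exact this
  have h2 : ∀ j, u v ^ j * Ev q u v = Ev q u v := fun j => by
    induction j with
    | zero => simp
    | succ j ih => rw [pow_succ, mul_assoc, h1, ih]
  have h3 : Ev q u v * Ev q u v = q v * Ev q u v := by
    have e : Ev q u v * Ev q u v = ∑ j ∈ range (q v), u v ^ j * Ev q u v := sum_mul _ _ _
    rw [e, sum_congr rfl fun j _ => h2 j]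
    simp
  rw [mul_sub, h3]; ring

theorem Nv_unsat (n : ℕ) (h : ∀ v < n, u v ^ q v = 1) (φ : List Cl)
    (hv : ∀ C ∈ φ, C.1.2 < n ∧ C.2.1.2 < n ∧ C.2.2.2 < n) (hs : ¬ Sat3 φ) :
    Nv q u (taut n ++ φ) = 0 := by
  classical
  have hE : ∀ v < n, Ev q u v * (q v - Ev q u v) = 0 := fun v hv => Ev_idem q u (h v hv)
  have h1 : Nv q u (taut n) = (∏ v ∈ range n, (q v : R)) ^ 3 := by
    unfold Nv taut
    rw [List.map_map, ← prod_pow, ← List.prod_toFinset _ List.nodup_range, List.toFinset_range]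
    refine prod_congr rfl fun v hv => ?_
    have := hE v (mem_range.1 hv)
    simp only [Function.comp, Sv, Qc, Fv, cond_true, cond_false]
    push_cast
    linear_combination (-(q v - Ev q u v)) * this
  have h2 : (∏ v ∈ range n, (q v : R)) * Nv q u φ = 0 := by
    have e : ∏ v ∈ range n, (q v : R) =
        ∏ v ∈ range n, (Ev q u v + (q v - Ev q u v)) := prod_congr rfl fun v _ => by ring
    rw [e, prod_add, sum_mul]
    refine sum_eq_zero fun T hT => ?_
    set P := (∏ v ∈ T, Ev q u v) * ∏ v ∈ range n \ T, (q v - Ev q u v) with hP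
    have key : ∀ l : Bool × ℕ, l.2 < n → decide (l.2 ∈ T) ≠ l.1 → P * Fv q u l = P * q l.2 := by
      rintro ⟨_ | _, v⟩ hv hl
      · have hm : v ∈ T := by simpa using hl
        have := hE v hv
        simp only [Fv, cond_false]
        rw [hP, ← mul_prod_erase _ _ hm]
        linear_combination (-((∏ x ∈ T.erase v, Ev q u x) *
          ∏ v ∈ range n \ T, (q v - Ev q u v))) * this
      · have hm : v ∈ range n \ T := by simpa [hv] using hl
        have := hE v hv
        simp only [Fv, cond_true]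
        rw [hP, ← mul_prod_erase _ _ hm]
        linear_combination (-((∏ x ∈ T, Ev q u x) *
          ∏ v ∈ (range n \ T).erase v, (q v - Ev q u v))) * this
    unfold Sat3 at hs
    push Not at hs
    obtain ⟨C, hC, c1, c2, c3⟩ := hs fun v => decide (v ∈ T)
    obtain ⟨v1, v2, v3⟩ := hv C hC
    have k : P * Sv q u C = 0 := by
      have k1 := key _ v1 c1
      have k2 := key _ v2 c2
      have k3 := key _ v3 c3
      simp only [Sv, Qc]
      push_cast
      linear_combination (-(Fv q u C.2.1 * Fv q u C.2.2)) * k1 -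
        (q C.1.2 * Fv q u C.2.2) * k2 - (q C.1.2 * q C.2.1.2) * k3
    obtain ⟨c, hc⟩ : Sv q u C ∣ Nv q u φ := List.dvd_prod (List.mem_map_of_mem hC)
    rw [hc, ← mul_assoc, k, zero_mul]
  have h3 : Nv q u (taut n ++ φ) = Nv q u (taut n) * Nv q u φ := by simp [Nv]
  rw [h3, h1, pow_succ, mul_assoc, h2, mul_zero]

theorem Nv_sat (n : ℕ) (τ : ℕ → Bool) (h : ∀ v < n, Ev q u v = cond (τ v) (q v : R) 0)
    (ψ : List Cl) (hv : ∀ C ∈ ψ, C.1.2 < n ∧ C.2.1.2 < n ∧ C.2.2.2 < n)
    (hs : ∀ C ∈ ψ, τ C.1.2 = C.1.1 ∨ τ C.2.1.2 = C.2.1.1 ∨ τ C.2.2.2 = C.2.2.1) :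
    Nv q u ψ = ((ψ.map (Qc q)).prod : ℕ) := by
  have key : ∀ l : Bool × ℕ, l.2 < n → τ l.2 = l.1 → Fv q u l = 0 := by
    rintro ⟨_ | _, v⟩ hv hl <;> simp only at hl <;> simp [Fv, h v hv, hl]
  unfold Nv
  rw [Nat.cast_list_prod, List.map_map]
  congr 1
  refine List.map_congr_left fun C hC => ?_
  obtain ⟨v1, v2, v3⟩ := hv C hC
  rcases hs C hC with c | c | c
  · simp [Sv, key _ v1 c]
  · simp [Sv, key _ v2 c]
  · simp [Sv, key _ v3 c]

end ring

theorem dvd_of_unsat (q e : ℕ → ℕ) (n W : ℕ) (h : ∀ v < n, e v * q v = W) (φ : List Cl)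
    (hv : ∀ C ∈ φ, C.1.2 < n ∧ C.2.1.2 < n ∧ C.2.2.2 < n) (hs : ¬ Sat3 φ) :
    (2 ^ W - 1 : ℤ) ∣ Nv q (fun v => (2 : ℤ) ^ e v) (taut n ++ φ) := by
  let I : Ideal ℤ := Ideal.span {(2 ^ W - 1 : ℤ)}
  rw [← Ideal.mem_span_singleton, ← Ideal.Quotient.eq_zero_iff_mem, map_Nv]
  refine Nv_unsat q _ n (fun v hv => ?_) φ hv hs
  rw [← map_pow, ← pow_mul, h v hv, ← sub_eq_zero, ← map_one (Ideal.Quotient.mk _), ← map_sub,
    Ideal.Quotient.eq_zero_iff_mem]
  exact Ideal.mem_span_singleton_self _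

theorem not_dvd_of_sat (q : ℕ → ℕ) (n M K : ℕ) (hp : ∀ v < n, (q v).Prime)
    (hi : ∀ v < n, ∀ w < n, q v = q w → v = w) (hK : K = ∏ v ∈ range n, q v) (ψ : List Cl)
    (hv : ∀ C ∈ ψ, C.1.2 < n ∧ C.2.1.2 < n ∧ C.2.2.2 < n) (hs : Sat3 ψ)
    (hM : (ψ.map (Qc q)).prod < M) :
    ¬ (2 ^ (M * K) - 1 : ℤ) ∣ Nv q (fun v => (2 : ℤ) ^ (M * (K / q v))) ψ := by
  classical
  obtain ⟨τ, hτ⟩ := hs
  intro hd
  let B : ℕ := 2 ^ M
  have hB : M < B := Nat.lt_two_pow_self
  let c : ℕ → ℤ := fun i => (Polynomial.cyclotomic i ℤ).eval (B : ℤ)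
  have hc : ∀ d, 0 < d → ∏ i ∈ d.divisors, c i = (B : ℤ) ^ d - 1 := fun d hd => by
    have := congrArg (Polynomial.eval (B : ℤ))
      (Polynomial.prod_cyclotomic_eq_X_pow_sub_one hd ℤ)
    simpa [Polynomial.eval_prod] using this
  have hB2 : ∀ d, (2 : ℤ) ^ (M * d) = (B : ℤ) ^ d := fun d => by simp [B, pow_mul]
  let y := ∏ v ∈ (range n).filter (fun v => τ v = false), q v
  have hK0 : 0 < K := hK ▸ prod_pos fun v hv => (hp v (mem_range.1 hv)).pos
  have hy0 : 0 < y := prod_pos fun v hv => (hp v (mem_range.1 (mem_filter.1 hv).1)).pos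
  have hyK : y ∣ K := hK ▸ prod_dvd_prod_of_subset _ _ _ (filter_subset _ _)
  have hdiv : ∀ d, 0 < d → y ∣ d → c y ∣ (B : ℤ) ^ d - 1 := fun d hd hyd => by
    rw [← hc d hd]; exact dvd_prod_of_mem _ (Nat.mem_divisors.2 ⟨hyd, hd.ne'⟩)
  have hQ0 : 0 < (ψ.map (Qc q)).prod := List.prod_pos fun x hx => by
    obtain ⟨C, hC, rfl⟩ := List.mem_map.1 hx
    obtain ⟨v1, v2, v3⟩ := hv C hC
    exact Nat.mul_pos (hp _ v1).pos (Nat.mul_pos (hp _ v2).pos (hp _ v3).pos)
  have hq : ∀ v < n, K / q v = ∏ w ∈ (range n).erase v, q w ∧ K / q v * q v = K := by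
    intro v hv
    have e := mul_prod_erase (range n) q (mem_range.2 hv)
    rw [← hK] at e
    have e2 : K / q v = ∏ w ∈ (range n).erase v, q w :=
      Nat.div_eq_of_eq_mul_right (hp v hv).pos e.symm
    exact ⟨e2, by rw [e2, mul_comm, e]⟩
  let f := Ideal.Quotient.mk (Ideal.span {c y})
  have hf : ∀ z, f z = 0 ↔ c y ∣ z := fun z => by
    rw [Ideal.Quotient.eq_zero_iff_mem, Ideal.mem_span_singleton]
  have h0 : f (Nv q (fun v => (2 : ℤ) ^ (M * (K / q v))) ψ) = 0 :=
    (hf _).2 ((hdiv K hK0 hyK).trans (by rw [← hB2]; exact hd))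
  rw [map_Nv, Nv_sat q _ n τ ?_ ψ hv hτ, ← map_natCast f, hf, ← Int.natAbs_dvd,
    Int.natCast_dvd_natCast] at h0
  · have h1 := Nat.le_of_dvd hQ0 h0
    rcases Nat.lt_or_ge 1 y with h2 | h2
    · have := Polynomial.sub_one_lt_natAbs_cyclotomic_eval (q := B) h2 (by omega)
      change B - 1 < (c y).natAbs at this
      omega
    · have h3 : y = 1 := by omega
      have : c y = (B : ℤ) - 1 := by simp [c, h3]
      omega
  · intro v hv
    obtain ⟨e1, e2⟩ := hq v hv
    have hd0 : 0 < K / q v := Nat.pos_of_ne_zero fun h => by rw [h] at e2; omega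
    cases hτv : τ v
    · have e3 : Ev q (fun v => f (2 ^ (M * (K / q v)))) v =
          f (∑ j ∈ range (q v), ((B : ℤ) ^ (K / q v)) ^ j) := by
        simp [Ev, hB2]
      rw [e3, cond_false, hf]
      have hsub : (K / q v).divisors ⊆ K.divisors :=
        Nat.divisors_subset_of_dvd hK0.ne' ⟨q v, e2.symm⟩
      have e4 := prod_sdiff (f := c) hsub
      have e5 := geom_sum_mul ((B : ℤ) ^ (K / q v)) (q v)
      rw [← pow_mul, e2, ← hc K hK0, ← e4, hc _ hd0] at e5
      have hne : (B : ℤ) ^ (K / q v) - 1 ≠ 0 := by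
        have : (1 : ℤ) < (B : ℤ) ^ (K / q v) := one_lt_pow₀ (by exact_mod_cast (by omega)) hd0.ne'
        omega
      rw [mul_right_cancel₀ hne e5]
      refine dvd_prod_of_mem _ (mem_sdiff.2 ⟨Nat.mem_divisors.2 ⟨hyK, hK0.ne'⟩, fun h => ?_⟩)
      have h1 : q v ∣ y := dvd_prod_of_mem _ (mem_filter.2 ⟨mem_range.2 hv, hτv⟩)
      have h2 := h1.trans (Nat.dvd_of_mem_divisors h)
      rw [e1] at h2
      obtain ⟨w, hw, h3⟩ := ((hp v hv).prime.dvd_finsetProd_iff _).1 h2
      have hw' := mem_range.1 (mem_erase.1 hw).2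
      exact (mem_erase.1 hw).1
        (hi v hv w hw' ((Nat.prime_dvd_prime_iff_eq (hp v hv) (hp w hw')).1 h3)).symm
    · have h1 : y ∣ K / q v := by
        rw [e1]
        refine prod_dvd_prod_of_subset _ _ _ fun w hw => mem_erase.2 ⟨?_, (mem_filter.1 hw).1⟩
        rintro rfl
        have := (mem_filter.1 hw).2
        rw [hτv] at this
        exact absurd this (by simp)
      have h2 : f (2 ^ (M * (K / q v))) = 1 := by
        rw [hB2, ← sub_eq_zero, ← map_one f, ← map_sub, hf]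
        exact hdiv _ hd0 h1
      simp only [Ev, h2, cond_true]
      simp

theorem many_primes (n : ℕ) : n ≤ ((range (2 * (n + 2) ^ 2 + 1)).filter Nat.Prime).card := by
  by_contra hlt
  push Not at hlt
  set k := (n + 2) ^ 2 with hk
  have hk4 : 4 ≤ k := by nlinarith
  have h1 := Nat.four_pow_lt_mul_centralBinom k hk4
  have h2 := Nat.prod_pow_factorization_centralBinom k
  have h3 : ∏ p ∈ range (2 * k + 1), p ^ (Nat.centralBinom k).factorization p =
      ∏ p ∈ (range (2 * k + 1)).filter Nat.Prime, p ^ (Nat.centralBinom k).factorization p := by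
    refine (prod_subset (filter_subset _ _) fun p hp hn => ?_).symm
    have : ¬ p.Prime := fun h => hn (mem_filter.2 ⟨hp, h⟩)
    rw [Nat.factorization_eq_zero_of_not_prime _ this, pow_zero]
  have h4 : Nat.centralBinom k ≤ (2 * k) ^ ((range (2 * k + 1)).filter Nat.Prime).card := by
    rw [← h2, h3]
    exact prod_le_pow_card _ _ _ fun p _ => Nat.pow_factorization_choose_le (by omega)
  have h5 : k * Nat.centralBinom k ≤ (2 * k) ^ n :=
    calc k * Nat.centralBinom k
        ≤ (2 * k) * (2 * k) ^ ((range (2 * k + 1)).filter Nat.Prime).card :=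
          Nat.mul_le_mul (by omega) h4
      _ = (2 * k) ^ (((range (2 * k + 1)).filter Nat.Prime).card + 1) := by ring
      _ ≤ (2 * k) ^ n := Nat.pow_le_pow_right (by omega) hlt
  have h6 : 2 * k ≤ 4 ^ (n + 3) := by
    have : n + 2 < 2 ^ (n + 2) := Nat.lt_two_pow_self
    have e : 4 ^ (n + 3) = 4 * (2 ^ (n + 2)) ^ 2 := by
      rw [← pow_mul, show (4 : ℕ) = 2 ^ 2 by norm_num, ← pow_mul, ← pow_add]; congr 1; ring
    rw [e, hk]
    have := Nat.pow_le_pow_left this.le 2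
    omega
  have h7 : (2 * k) ^ n ≤ 4 ^ k :=
    calc (2 * k) ^ n ≤ (4 ^ (n + 3)) ^ n := Nat.pow_le_pow_left h6 n
      _ = 4 ^ ((n + 3) * n) := by rw [← pow_mul]
      _ ≤ 4 ^ k := Nat.pow_le_pow_right (by norm_num) (by rw [hk]; nlinarith)
  omega

end Pool.Agent.Lib.MP_4c90a8_lc.Two
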