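import Mathlib
import Pool.Agent.Shared.GroupUndec.Rabin

/-! Group theory: compression in `BS(1,2)`, the divisibility test, balanced presentations. -/

namespace Pool.Agent.Lib.MP_4c90a8_lc.Two

open Pool.Agent.Shared.GroupUndec Monoid Function

section bs

variable {G : Type} [Group G]

theorem conj_pow_two {t a : G} (h : t * a * t⁻¹ = a ^ 2) (e : ℕ) (k : ℤ) :
    t ^ e * a ^ k * (t ^ e)⁻¹ = a ^ (2 ^ e * k) := by
  induction e with
  | zero => simp
  | succ e ih =>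
    have : t ^ (e + 1) * a ^ k * (t ^ (e + 1))⁻¹ = t * (t ^ e * a ^ k * (t ^ e)⁻¹) * t⁻¹ := by
      rw [pow_succ']; group
    rw [this, ih, ← conj_zpow, h, ← zpow_natCast, ← zpow_mul]
    congr 1
    push_cast
    ring

theorem geo_pow {t a : G} (h : t * a * t⁻¹ = a ^ 2) (e : ℕ) (k : ℤ) (q : ℕ) :
    (a ^ k * t ^ e) ^ q * ((t ^ e) ^ q)⁻¹ =
      a ^ ((∑ j ∈ Finset.range q, ((2 : ℤ) ^ e) ^ j) * k) := by
  induction q with
  | zero => simp
  | succ q ih =>
    have : (a ^ k * t ^ e) ^ (q + 1) * ((t ^ e) ^ (q + 1))⁻¹ =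
        a ^ k * (t ^ e * ((a ^ k * t ^ e) ^ q * ((t ^ e) ^ q)⁻¹) * (t ^ e)⁻¹) := by
      rw [pow_succ' (a ^ k * t ^ e), pow_succ' (t ^ e)]; group
    rw [this, ih, conj_pow_two h, ← zpow_add, Finset.sum_range_succ', add_mul]
    congr 1
    simp only [pow_succ', ← Finset.mul_sum]
    ring

theorem comm_conj {g y : G} (h : g * y * g⁻¹ = y ^ 2) (k : ℤ) :
    Commute (g ^ k * y * (g ^ k)⁻¹) y := by
  have key : ∀ e : ℕ, Commute (g ^ e * y * (g ^ e)⁻¹) y := fun e => by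
    have := conj_pow_two h e 1
    rw [zpow_one] at this
    rw [this]
    exact Commute.zpow_left rfl _
  rcases Int.eq_nat_or_neg k with ⟨e, rfl | rfl⟩
  · rw [zpow_natCast]; exact key e
  · have := ((key e).conj (g ^ e)⁻¹).symm
    rw [zpow_neg, zpow_natCast]
    have e1 : (g ^ e)⁻¹ * (g ^ e * y * (g ^ e)⁻¹) * (g ^ e)⁻¹⁻¹ = y := by group
    rwa [e1] at this

end bs

/-- translation by one -/
def trA : Equiv.Perm ℚ := Equiv.addRight 1
/-- doubling -/
def dbl : Equiv.Perm ℚ := Equiv.mulLeft₀ 2 two_ne_zero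

theorem trA_zpow (k : ℤ) (r : ℚ) : (trA ^ k) r = r + k := by
  simp [trA]

theorem dbl_rel : dbl * trA * dbl⁻¹ = trA ^ 2 := by
  rw [mul_inv_eq_iff_eq_mul]
  ext r
  simp [dbl, trA, pow_two]
  ring

theorem dbl_zpow (k : ℤ) (r : ℚ) : (dbl ^ k) r = 2 ^ k * r := by
  induction k using Int.induction_on generalizing r with
  | zero => simp
  | succ k ih => rw [zpow_add_one, Equiv.Perm.mul_apply, ih, zpow_add_one₀ two_ne_zero]; simp [dbl]; ring
  | pred k ih =>
    rw [zpow_sub_one, Equiv.Perm.mul_apply, ih, zpow_sub_one₀ two_ne_zero]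
    simp [dbl, Equiv.Perm.inv_def]; ring

theorem model (D N : ℤ) (hD : D ≠ 0) (h : ¬ D ∣ N) : ∃ (G : Type) (_ : Group G) (t a y : G),
    t * a * t⁻¹ = a ^ 2 ∧ a ^ D * y * (a ^ D)⁻¹ = y ^ 2 ∧
      a ^ N * y * (a ^ N)⁻¹ * y * (a ^ N * y * (a ^ N)⁻¹)⁻¹ * y⁻¹ ≠ 1 := by
  classical
  let M : Bool → Type := fun _ => Equiv.Perm ℚ
  let φ : ∀ i, Multiplicative ℤ →* M i := fun i =>
    cond i (zpowersHom (Equiv.Perm ℚ) (trA ^ D)) (zpowersHom (Equiv.Perm ℚ) dbl)
  have hφ : ∀ i, Injective (φ i) := by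
    rintro (_ | _) <;> rw [injective_iff_map_eq_one] <;> intro x hx
    · have h1 : dbl ^ x.toAdd = 1 := hx
      have h2 := dbl_zpow x.toAdd 1
      rw [h1, mul_one, Equiv.Perm.one_apply, eq_comm, zpow_eq_one_iff_right₀ (by norm_num)
        (by norm_num)] at h2
      exact h2
    · have h1 : (trA ^ D) ^ x.toAdd = 1 := hx
      have h2 := trA_zpow (D * x.toAdd) 0
      rw [zpow_mul, h1, Equiv.Perm.one_apply, zero_add, eq_comm, Int.cast_eq_zero] at h2
      exact (mul_eq_zero.1 h2).resolve_left hD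
  have n1 : ∀ k : ℤ, ¬ D ∣ k → trA ^ k ∉ (φ true).range := by
    rintro k hk ⟨x, hx⟩
    have h1 : (trA ^ D) ^ x.toAdd = trA ^ k := hx
    have h2 := trA_zpow (D * x.toAdd) 0
    rw [zpow_mul, h1, trA_zpow, zero_add, zero_add, Int.cast_inj] at h2
    exact hk ⟨_, h2⟩
  have n2 : ∀ k : ℤ, k ≠ 0 → trA ^ k ∉ (φ false).range := by
    rintro k hk ⟨x, hx⟩
    have h1 : dbl ^ x.toAdd = trA ^ k := hx
    have h2 := dbl_zpow x.toAdd 0
    rw [h1, trA_zpow, zero_add, mul_zero, Int.cast_eq_zero] at h2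
    exact hk h2
  have h' : ¬ D ∣ -N := by rwa [dvd_neg]
  let L : Equiv.Perm ℚ →* PushoutI φ := PushoutI.of (φ := φ) true
  let R : Equiv.Perm ℚ →* PushoutI φ := PushoutI.of (φ := φ) false
  have hLR : L trA ^ D = R dbl := by
    have e1 := PushoutI.of_apply_eq_base φ true (Multiplicative.ofAdd 1)
    have e2 := PushoutI.of_apply_eq_base φ false (Multiplicative.ofAdd 1)
    have := e1.trans e2.symm
    simpa [φ, L, R] using this
  let l : List (Σ i, M i) := [⟨true, trA ^ N⟩, ⟨false, trA ^ (1 : ℤ)⟩, ⟨true, trA ^ (-N)⟩,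
    ⟨false, trA ^ (1 : ℤ)⟩, ⟨true, trA ^ N⟩, ⟨false, trA ^ (-1 : ℤ)⟩, ⟨true, trA ^ (-N)⟩,
    ⟨false, trA ^ (-1 : ℤ)⟩]
  have hl : ∀ g ∈ l, g.2 ∉ (φ g.1).range := by
    intro g hg
    simp only [l, List.mem_cons, List.not_mem_nil, or_false] at hg
    rcases hg with rfl | rfl | rfl | rfl | rfl | rfl | rfl | rfl
    exacts [n1 _ h, n2 _ (by norm_num), n1 _ h', n2 _ (by norm_num), n1 _ h, n2 _ (by norm_num),
      n1 _ h', n2 _ (by norm_num)]
  let w : CoprodI.Word M := ⟨l, fun g hg e => hl g hg (e ▸ one_mem _), by simp [l]⟩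
  refine ⟨PushoutI φ, inferInstance, L dbl, L trA, R trA, ?_, ?_, fun e => ?_⟩
  · rw [← map_inv, ← map_mul, ← map_mul, dbl_rel, map_pow]
  · rw [hLR, ← map_inv, ← map_mul, ← map_mul, dbl_rel, map_pow]
  · have hw : PushoutI.ofCoprodI w.prod = (1 : PushoutI φ) := by
      rw [← e]
      simp only [w, l, CoprodI.Word.prod, List.map_cons, List.map_nil, List.prod_cons,
        List.prod_nil, map_mul, PushoutI.ofCoprodI_of, map_one]
      change L (trA ^ N) * (R (trA ^ (1 : ℤ)) * (L (trA ^ (-N)) * (R (trA ^ (1 : ℤ)) *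
        (L (trA ^ N) * (R (trA ^ (-1 : ℤ)) * (L (trA ^ (-N)) * (R (trA ^ (-1 : ℤ)) * 1))))))) = _
      simp only [map_zpow]
      group
    have := PushoutI.Reduced.eq_empty_of_mem_range hφ (w := w) hl (hw ▸ one_mem _)
    have := congrArg CoprodI.Word.toList this
    simp [w, l] at this

theorem surj_of_triv {N : ℕ} {S : List Word} (hl : S.length = N)
    (hT : Triv N S []) : Surj S := by
  classical
  intro A _ β
  let V := Fin N → ℤ
  let g : ℕ → Multiplicative V := fun x =>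
    Multiplicative.ofAdd (if h : x < N then Pi.single ⟨x, h⟩ 1 else 0)
  let ρ : V →ₗ[ℤ] V := (Pi.basisFun ℤ (Fin N)).constr ℤ fun s => (ev g (S.getD s [])).toAdd
  have hρ : ∀ s : Fin N, ρ (Pi.single s 1) = (ev g (S.getD s [])).toAdd := fun s => by
    rw [← Pi.basisFun_apply]; exact Module.Basis.constr_basis _ _ _ _
  have hsurj : Surjective ρ := by
    let π : Multiplicative V →* Multiplicative (V ⧸ LinearMap.range ρ) :=
      AddMonoidHom.toMultiplicative (LinearMap.range ρ).mkQ.toAddMonoidHom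
    have hπ : ∀ z, π z = 1 ↔ z.toAdd ∈ LinearMap.range ρ := fun z =>
      Submodule.Quotient.mk_eq_zero _
    have h1 := hT _ (fun x => π (g x)) (fun s hs => by
      obtain ⟨i, hi, rfl⟩ := List.getElem_of_mem hs
      rw [← map_ev, hπ, ← List.getD_eq_getElem _ [] hi]
      exact ⟨_, hρ ⟨i, hl ▸ hi⟩⟩) (by simp)
    rw [← LinearMap.range_eq_top, eq_top_iff, ← (Pi.basisFun ℤ (Fin N)).span_eq,
      Submodule.span_le]
    rintro _ ⟨i, rfl⟩
    have := (hπ _).1 (h1 i i.2)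
    simpa [g, Pi.basisFun_apply] using this
  let σ := LinearEquiv.ofBijective ρ
    ⟨OrzechProperty.injective_of_surjective_endomorphism ρ hsurj, hsurj⟩
  let ψ : V →ₗ[ℤ] Additive A := (Pi.basisFun ℤ (Fin N)).constr ℤ fun s => Additive.ofMul (β s)
  let F : Multiplicative V →* A :=
    AddMonoidHom.toMultiplicativeLeft (ψ.comp σ.symm.toLinearMap).toAddMonoidHom
  refine ⟨fun x => F (g x), fun s hs => ?_⟩
  rw [← map_ev]
  have e1 : σ.symm (ev g (S.getD s [])).toAdd = Pi.single ⟨s, hl ▸ hs⟩ 1 := by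
    rw [LinearEquiv.symm_apply_eq]
    exact (hρ ⟨s, hl ▸ hs⟩).symm
  change Additive.toMul (ψ (σ.symm (ev g (S.getD s [])).toAdd)) = _
  rw [e1, ← Pi.basisFun_apply, Module.Basis.constr_basis]
  rfl

theorem exists_ext {G : Type} [Group G] (b : ℕ → G) (d : ℕ → Word) (P : ℕ)
    (hd : ∀ k < P, ∀ c ∈ d k, c.1 < 3 + k) :
    ∃ a : ℕ → G, (∀ x < 3, a x = b x) ∧ ∀ k < P, a (3 + k) = ev a (d k) := by
  induction P with
  | zero => exact ⟨b, fun _ _ => rfl, fun _ h => absurd h (by omega)⟩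
  | succ P ih =>
    obtain ⟨a, h1, h2⟩ := ih fun k hk => hd k (by omega)
    refine ⟨Function.update a (3 + P) (ev a (d P)), fun x hx => ?_, fun k hk => ?_⟩
    · rw [Function.update_of_ne (by omega), h1 x hx]
    · rw [ev_congr (b := a) (hd k hk) fun x hx => Function.update_of_ne (by omega) _ _]
      rcases Nat.lt_succ_iff_lt_or_eq.1 hk with h | rfl
      · rw [Function.update_of_ne (by omega), h2 k h]
      · rw [Function.update_self]

theorem miller_four {G : Type} [Group G] (a : ℕ → G) (N : ℕ) (w : Word)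
    (h3 : ev a (sig3 N w) = 1) (h1 : ev a (sig1 N) = 1) (h2 : ev a (sig2 N) = 1)
    (h4 : ev a (sig4 N 0) = 1) (hw : ev a w = 1) :
    a 0 = 1 ∧ a N = 1 ∧ a (N + 1) = 1 ∧ a (N + 2) = 1 := by
  simp only [sig1, sig2, sig3, ev_append, ev_winv, ev_cj, ev_cons_true, ev_cons_false, ev_nil,
    mul_one, mul_inv_eq_one] at h1 h2 h3
  have hb : a (N + 1) = 1 := by
    rw [hw, inv_one, one_mul, one_mul, inv_mul_cancel, mul_one, inv_mul_cancel, eq_comm,
      mul_eq_one_iff_eq_inv, mul_eq_left] at h3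
    exact h3
  have hc : a (N + 2) = 1 := by simpa [hb] using h1.symm
  have ha : a N = 1 := by
    rw [hb, hc] at h2
    simp only [inv_one, mul_one, one_mul, one_pow] at h2
    rwa [mul_eq_one_iff_eq_inv, mul_eq_left] at h2
  exact ⟨by simpa [sig4, ha, hb, hc] using h4, ha, hb, hc⟩

end Pool.Agent.Lib.MP_4c90a8_lc.Two
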