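import Mathlib
import Pool.Agent.Lib.MP_4c90a8_lc.Two.Arith
import Pool.Agent.Lib.MP_4c90a8_lc.Two.Grp

/-! The balanced presentation of a formula; it is trivial iff the formula is unsatisfiable. -/

namespace Pool.Agent.Lib.MP_4c90a8_lc.Two

open Pool.Agent.Shared.GroupUndec Pool.Agent.Shared.PolyTime Pool.Agent.Shared.CookLevin

/-- power of a word, the exponent being the length of a list -/
def pw (r : List ℕ) (Y : Word) : Word := r.flatMap fun _ => Y
/-- the word for `t ^ E` -/
def tw (E : ℕ) : Word := E.bits.zipIdx.flatMap fun p => cond p.1 [(3 + p.2, true)] []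
/-- multiplication of the exponent by a geometric sum -/
def geo (r : List ℕ) (Y T : Word) : Word := pw r (Y ++ T) ++ winv (pw r T)
/-- the modulus of a variable -/
def qq (U : List (List ℕ)) (v : ℕ) : ℕ := (U.getD v []).length
/-- literal step -/
def fw (U : List (List ℕ)) (M K : ℕ) (l : Bool × ℕ) (Y : Word) : Word :=
  cond l.1 (pw (U.getD l.2 []) Y ++ winv (geo (U.getD l.2 []) Y (tw (M * (K / qq U l.2)))))
    (geo (U.getD l.2 []) Y (tw (M * (K / qq U l.2))))
/-- clause step -/
def cw (U : List (List ℕ)) (M K : ℕ) (C : Cl) (Y : Word) : Word :=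
  pw (U.getD C.1.2 []) (pw (U.getD C.2.1.2 []) (pw (U.getD C.2.2.2 []) Y)) ++
    winv (fw U M K C.1 (fw U M K C.2.1 (fw U M K C.2.2 Y)))
/-- definition of generator `3 + k` -/
def dfn (U : List (List ℕ)) (M K : ℕ) (ψ : List Cl) (k : ℕ) : Word :=
  if k = 0 then [(0, true)] else if k ≤ (M * K).bits.length then [(2 + k, true), (2 + k, true)]
  else if k = (M * K).bits.length + 1 then [(1, true)]
  else cw U M K (ψ.getD (k - ((M * K).bits.length + 2)) ((true, 0), (true, 0), (true, 0)))
    [(2 + k, true)]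
/-- the word for `a ^ (2 ^ W - 1)` -/
def dw (W : ℕ) : Word := tw W ++ (1, true) :: (winv (tw W) ++ [(1, false)])
/-- the test word -/
def test (z : ℕ) : Word :=
  [(z, true), (2, true), (z, false), (2, true), (z, true), (2, false), (z, false), (2, false)]
/-- number of defined generators -/
def np (M K : ℕ) (ψ : List Cl) : ℕ := (M * K).bits.length + 2 + ψ.length
/-- the relators -/
def rels (U : List (List ℕ)) (M K : ℕ) (ψ : List Cl) : List Word :=
  [(0, true), (1, true), (0, false), (1, false), (1, false)] ::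
  (dw (M * K) ++ (2, true) :: (winv (dw (M * K)) ++ [(2, false), (2, false)])) ::
  sig3 (3 + np M K ψ) (test (2 + np M K ψ)) :: sig1 (3 + np M K ψ) :: sig2 (3 + np M K ψ) ::
  sig4 (3 + np M K ψ) 0 ::
  (List.range (np M K ψ)).map fun k => (3 + k, false) :: dfn U M K ψ k

theorem rels_length (U : List (List ℕ)) (M K : ℕ) (ψ : List Cl) :
    (rels U M K ψ).length = 3 + np M K ψ + 3 := by
  simp [rels]; omega

/-- all letters are small -/
def Lt (B : ℕ) (w : Word) : Prop := ∀ c ∈ w, c.1 < B

section letters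

variable {B : ℕ} {u w : Word}

theorem Lt.append (hu : Lt B u) (hw : Lt B w) : Lt B (u ++ w) := fun c hc =>
  (List.mem_append.1 hc).elim (hu c) (hw c)
theorem Lt.winv (hu : Lt B u) : Lt B (winv u) := fun p hp => by
  simp only [Pool.Agent.Shared.GroupUndec.winv, List.mem_reverse, List.mem_map] at hp
  obtain ⟨q, hq, rfl⟩ := hp
  exact hu q hq
theorem Lt.cons {x : ℕ} {b : Bool} (hx : x < B) (hu : Lt B u) : Lt B ((x, b) :: u) :=
  fun c hc => (List.mem_cons.1 hc).elim (fun e => e ▸ hx) (hu c)
theorem Lt.nil : Lt B [] := fun _ h => absurd h (by simp)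
theorem Lt.pw (r : List ℕ) (hu : Lt B u) : Lt B (pw r u) := fun c hc => by
  obtain ⟨_, -, h⟩ := List.mem_flatMap.1 hc
  exact hu c h
theorem Lt.mono {B' : ℕ} (hu : Lt B u) (h : B ≤ B') : Lt B' u := fun c hc => (hu c hc).trans_le h
theorem bits_mono {E W : ℕ} (h : E ≤ W) : E.bits.length ≤ W.bits.length := by
  rw [Nat.size_eq_bits_len, Nat.size_eq_bits_len]
  exact Nat.size_le_size h
theorem lt_tw {E W : ℕ} (h : E ≤ W) : Lt (3 + W.bits.length) (tw E) := fun c hc => by
  obtain ⟨p, hp, hc⟩ := List.mem_flatMap.1 hc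
  have h1 := List.snd_lt_of_mem_zipIdx hp
  have h2 := bits_mono h
  rcases p with ⟨_ | _, j⟩
  · simp at hc
  · simp only [cond_true, List.mem_singleton] at hc
    subst hc
    simp only at h1 ⊢
    omega
theorem e_le (M K q : ℕ) : M * (K / q) ≤ M * K := Nat.mul_le_mul_left _ (Nat.div_le_self _ _)
theorem Lt.fw {U : List (List ℕ)} {M K : ℕ} (l : Bool × ℕ) (hB : 3 + (M * K).bits.length ≤ B)
    (hu : Lt B u) : Lt B (fw U M K l u) := by
  have h1 : Lt B (tw (M * (K / qq U l.2))) := (lt_tw (e_le _ _ _)).mono hB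
  have h2 : Lt B (geo (U.getD l.2 []) u (tw (M * (K / qq U l.2)))) :=
    ((hu.append h1).pw _).append (h1.pw _).winv
  unfold Two.fw
  cases l.1
  · exact h2
  · exact (hu.pw _).append h2.winv

theorem lt_dfn (U : List (List ℕ)) (M K : ℕ) (ψ : List Cl) (k : ℕ) :
    Lt (3 + k) (dfn U M K ψ k) := by
  unfold dfn
  split_ifs with h1 h2 h3
  · exact Lt.cons (by omega) Lt.nil
  · exact Lt.cons (by omega) (Lt.cons (by omega) Lt.nil)
  · exact Lt.cons (by omega) Lt.nil
  · have h : Lt (3 + k) [(2 + k, true)] := Lt.cons (by omega) Lt.nil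
    have hB : 3 + (M * K).bits.length ≤ 3 + k := by omega
    exact (((h.pw _).pw _).pw _).append (((h.fw _ hB).fw _ hB).fw _ hB).winv

theorem lt_dw (W : ℕ) : Lt (3 + W.bits.length) (dw W) :=
  (lt_tw le_rfl).append (Lt.cons (by omega) ((lt_tw le_rfl).winv.append (Lt.cons (by omega) Lt.nil)))

theorem lt_test (P : ℕ) (hP : 0 < P) : Lt (3 + P) (test (2 + P)) := fun c hc => by
  simp only [test, List.mem_cons, List.not_mem_nil, or_false] at hc
  rcases hc with rfl | rfl | rfl | rfl | rfl | rfl | rfl | rfl <;> simp only <;> omega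

theorem np_pos (M K : ℕ) (ψ : List Cl) : 0 < np M K ψ := by unfold np; omega

theorem sig_mem (N : ℕ) (hN : 0 < N) (w : Word) : sig3 N w ∈ miller N w ∧ sig1 N ∈ miller N w ∧
    sig2 N ∈ miller N w ∧ sig4 N 0 ∈ miller N w := by
  refine ⟨by simp [miller], by simp [miller], by simp [miller], ?_⟩
  simp only [miller, List.mem_cons, List.mem_map, List.mem_range]
  exact Or.inr (Or.inr (Or.inr ⟨0, hN, rfl⟩))

theorem lt_rels (U : List (List ℕ)) (M K : ℕ) (ψ : List Cl) :
    ∀ s ∈ rels U M K ψ, Lt (3 + np M K ψ + 3) s := by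
  have hm := miller_letters (3 + np M K ψ) _ (lt_test _ (np_pos M K ψ))
  obtain ⟨m3, m1, m2, m4⟩ := sig_mem (3 + np M K ψ) (by omega) (test (2 + np M K ψ))
  have hd : Lt (3 + np M K ψ + 3) (dw (M * K)) := (lt_dw _).mono (by unfold np; omega)
  intro s hs
  simp only [rels, List.mem_cons, List.mem_map, List.mem_range] at hs
  rcases hs with rfl | rfl | rfl | rfl | rfl | rfl | ⟨k, hk, rfl⟩
  · exact Lt.cons (by omega) (Lt.cons (by omega) (Lt.cons (by omega) (Lt.cons (by omega)
      (Lt.cons (by omega) Lt.nil))))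
  · exact hd.append (Lt.cons (by omega) (hd.winv.append (Lt.cons (by omega)
      (Lt.cons (by omega) Lt.nil))))
  · exact hm _ m3
  · exact hm _ m1
  · exact hm _ m2
  · exact hm _ m4
  · exact Lt.cons (by omega) ((lt_dfn U M K ψ k).mono (by omega))

end letters

section sem

variable {G : Type} [Group G] (a : ℕ → G)

theorem ev_pw (r : List ℕ) (Y : Word) : ev a (pw r Y) = ev a Y ^ r.length := by
  induction r with
  | nil => simp [pw]
  | cons x r ih =>
    have : pw (x :: r) Y = Y ++ pw r Y := by simp [pw]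
    rw [this, ev_append, ih, List.length_cons, pow_succ']

theorem ev_bits (l : List Bool) : ∀ k : ℕ, (∀ j < k + l.length, a (3 + j) = a 0 ^ 2 ^ j) →
    ev a ((l.zipIdx k).flatMap fun p => cond p.1 [(3 + p.2, true)] []) =
      a 0 ^ (2 ^ k * val l) := by
  induction l with
  | nil => intro k _; simp [val]
  | cons b l ih =>
    intro k h
    rw [List.zipIdx_cons, List.flatMap_cons, ev_append,
      ih (k + 1) fun j hj => h j (by simp only [List.length_cons]; omega),
      val_head_tail (b :: l)]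
    have hk := h k (by simp)
    cases b
    · simp only [cond_false, ev_nil, one_mul, List.headD_cons, Bool.toNat_false, List.tail_cons]
      congr 1; ring
    · simp only [cond_true, ev_cons_true, ev_nil, mul_one, hk, List.headD_cons, Bool.toNat_true,
        List.tail_cons, ← pow_add]
      congr 1; ring

variable {a} {U : List (List ℕ)} {M K : ℕ}

theorem ev_tw {W : ℕ} (hT : ∀ j < W.bits.length, a (3 + j) = a 0 ^ 2 ^ j) {E : ℕ} (h : E ≤ W) :
    ev a (tw E) = a 0 ^ E := by
  have := ev_bits a E.bits 0 fun j hj => hT j (by have := bits_mono h; omega)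
  rw [val_bits, pow_zero, one_mul] at this
  exact this

theorem ev_fw (h : a 0 * a 1 * (a 0)⁻¹ = a 1 ^ 2)
    (hT : ∀ j < (M * K).bits.length, a (3 + j) = a 0 ^ 2 ^ j) (l : Bool × ℕ) {Y : Word} {k : ℤ}
    (hY : ev a Y = a 1 ^ k) :
    ev a (fw U M K l Y) = a 1 ^ (Fv (qq U) (fun v => (2 : ℤ) ^ (M * (K / qq U v))) l * k) := by
  have h1 : ev a (geo (U.getD l.2 []) Y (tw (M * (K / qq U l.2)))) =
      a 1 ^ (Ev (qq U) (fun v => (2 : ℤ) ^ (M * (K / qq U v))) l.2 * k) := by
    rw [geo, ev_append, ev_winv, ev_pw, ev_pw, ev_append, hY, ev_tw hT (e_le _ _ _), geo_pow h]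
    rfl
  unfold fw Fv
  cases l.1
  · exact h1
  · rw [cond_true, cond_true, ev_append, ev_winv, h1, ev_pw, hY, ← zpow_natCast, ← zpow_mul,
      ← zpow_sub]
    congr 1
    unfold qq
    ring

theorem ev_cw (h : a 0 * a 1 * (a 0)⁻¹ = a 1 ^ 2)
    (hT : ∀ j < (M * K).bits.length, a (3 + j) = a 0 ^ 2 ^ j) (C : Cl) {Y : Word} {k : ℤ}
    (hY : ev a Y = a 1 ^ k) :
    ev a (cw U M K C Y) = a 1 ^ (k * Sv (qq U) (fun v => (2 : ℤ) ^ (M * (K / qq U v))) C) := by
  rw [cw, ev_append, ev_winv, ev_fw h hT _ (ev_fw h hT _ (ev_fw h hT _ hY)), ev_pw, ev_pw, ev_pw,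
    hY, ← pow_mul, ← pow_mul, ← zpow_natCast, ← zpow_mul, ← zpow_sub]
  congr 1
  unfold Sv Qc
  generalize Fv (qq U) (fun v => (2 : ℤ) ^ (M * (K / qq U v))) = F
  unfold qq
  push_cast
  ring

theorem sem {ψ : List Cl} (h : a 0 * a 1 * (a 0)⁻¹ = a 1 ^ 2)
    (hd : ∀ k < np M K ψ, a (3 + k) = ev a (dfn U M K ψ k)) :
    ev a (dw (M * K)) = a 1 ^ (2 ^ (M * K) - 1 : ℤ) ∧
      a (2 + np M K ψ) = a 1 ^ Nv (qq U) (fun v => (2 : ℤ) ^ (M * (K / qq U v))) ψ := by
  have hT : ∀ j ≤ (M * K).bits.length, a (3 + j) = a 0 ^ 2 ^ j := by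
    intro j
    induction j with
    | zero => intro _; rw [hd 0 (np_pos _ _ _)]; simp [dfn]
    | succ j ih =>
      intro hj
      rw [hd _ (by unfold np; omega), dfn, if_neg (by omega), if_pos hj,
        show 2 + (j + 1) = 3 + j by omega]
      simp only [ev_cons_true, ev_nil, mul_one, ih (by omega), ← pow_add]
      congr 1; ring
  have hT' : ∀ j < (M * K).bits.length, a (3 + j) = a 0 ^ 2 ^ j := fun j hj => hT j hj.le
  constructor
  · have := conj_pow_two h (M * K) 1
    rw [zpow_one, mul_one] at this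
    rw [dw, ev_append, ev_cons_true, ev_append, ev_winv, ev_tw hT' le_rfl, zpow_sub_one, ← this]
    simp [mul_assoc]
  · have key : ∀ i ≤ ψ.length, a (3 + ((M * K).bits.length + 1 + i)) =
        a 1 ^ Nv (qq U) (fun v => (2 : ℤ) ^ (M * (K / qq U v))) (ψ.take i) := by
      intro i
      induction i with
      | zero =>
        intro _
        rw [hd _ (by unfold np; omega), dfn, if_neg (by omega), if_neg (by omega), if_pos rfl]
        simp [Nv]
      | succ i ih =>
        intro hi
        rw [hd _ (by unfold np; omega), dfn, if_neg (by omega), if_neg (by omega),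
          if_neg (by omega), ev_cw h hT' _ (k := Nv (qq U) _ (ψ.take i)) (by
            rw [ev_cons_true, ev_nil, mul_one, ← ih (by omega)]
            congr 1; omega),
          show (M * K).bits.length + 1 + (i + 1) - ((M * K).bits.length + 2) = i by omega,
          List.getD_eq_getElem _ _ hi, List.take_succ_eq_append_getElem hi]
        simp only [Nv, List.map_append, List.prod_append, List.map_cons, List.map_nil,
          List.prod_cons, List.prod_nil, mul_one]
    have := key _ le_rfl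
    rw [List.take_length] at this
    rw [← this]
    congr 1
    unfold np; omega

end sem

theorem triv_iff (U : List (List ℕ)) (M K : ℕ) (ψ : List Cl) (h0 : 0 < M * K) :
    Triv (3 + np M K ψ + 3) (rels U M K ψ) [] ↔
      (2 ^ (M * K) - 1 : ℤ) ∣ Nv (qq U) (fun v => (2 : ℤ) ^ (M * (K / qq U v))) ψ := by
  constructor
  · intro hT
    by_contra hn
    have hD : (2 ^ (M * K) - 1 : ℤ) ≠ 0 := by
      have : (1 : ℤ) < 2 ^ (M * K) := one_lt_pow₀ (by norm_num) h0.ne'
      omega
    obtain ⟨G, _, t, a, y, r1, r2, r3⟩ := model _ _ hD hn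
    obtain ⟨b, b1, b2⟩ := exists_ext (fun x => if x = 0 then t else if x = 1 then a else y)
      (dfn U M K ψ) (np M K ψ) fun k _ => lt_dfn U M K ψ k
    have e0 : b 0 = t := b1 0 (by omega)
    have e1 : b 1 = a := b1 1 (by omega)
    have e2 : b 2 = y := b1 2 (by omega)
    obtain ⟨s1, s2⟩ := sem (a := b) (by rw [e0, e1, r1]) b2
    have hw := lt_test _ (np_pos M K ψ)
    obtain ⟨H, _, f, c, c1, c2, c3⟩ := miller_nontriv b (3 + np M K ψ) _ hw (by
      intro e
      apply r3
      rw [← e]
      simp only [test, ev_cons_true, ev_cons_false, ev_nil, s2, e1, e2]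
      group)
    obtain ⟨m3, m1, m2, m4⟩ := sig_mem (3 + np M K ψ) (by omega) (test (2 + np M K ψ))
    have tr : ∀ s, Lt (3 + np M K ψ) s → ev b s = 1 → ev c s = 1 := fun s hs e => by
      rw [ev_congr hs c1, ← map_ev, e, map_one]
    have hd : Lt (3 + np M K ψ) (dw (M * K)) := (lt_dw _).mono (by unfold np; omega)
    refine c3 (hT H c (fun s hs => ?_) (by simp) _ (by omega))
    simp only [rels, List.mem_cons, List.mem_map, List.mem_range] at hs
    rcases hs with rfl | rfl | rfl | rfl | rfl | rfl | ⟨k, hk, rfl⟩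
    · refine tr _ (Lt.cons (by omega) (Lt.cons (by omega) (Lt.cons (by omega) (Lt.cons (by omega)
        (Lt.cons (by omega) Lt.nil))))) ?_
      simp only [ev_cons_true, ev_cons_false, ev_nil, e0, e1]
      rw [← mul_assoc, ← mul_assoc, r1]
      group
    · refine tr _ (hd.append (Lt.cons (by omega) (hd.winv.append (Lt.cons (by omega)
        (Lt.cons (by omega) Lt.nil))))) ?_
      simp only [ev_append, ev_winv, ev_cons_true, ev_cons_false, ev_nil, s1, e1, e2]
      rw [← mul_assoc, ← mul_assoc, r2]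
      group
    · exact c2 _ m3
    · exact c2 _ m1
    · exact c2 _ m2
    · exact c2 _ m4
    · refine tr _ (Lt.cons (by omega) ((lt_dfn U M K ψ k).mono (by omega))) ?_
      rw [ev_cons_false, b2 k hk, inv_mul_cancel]
  · rintro ⟨j, hj⟩ G _ a hS -
    simp only [rels, List.mem_cons, List.mem_map, List.mem_range, forall_eq_or_imp] at hS
    obtain ⟨r1, r2, m3, m1, m2, m4, hd⟩ := hS
    have hd' : ∀ k < np M K ψ, a (3 + k) = ev a (dfn U M K ψ k) := fun k hk => by
      have := hd _ ⟨k, hk, rfl⟩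
      rwa [ev_cons_false, inv_mul_eq_one] at this
    have r1' : a 0 * a 1 * (a 0)⁻¹ = a 1 ^ 2 := by
      simp only [ev_cons_true, ev_cons_false, ev_nil] at r1
      rw [← mul_inv_eq_one, ← r1]
      group
    obtain ⟨s1, s2⟩ := sem r1' hd'
    have r2' : a 1 ^ (2 ^ (M * K) - 1 : ℤ) * a 2 * (a 1 ^ (2 ^ (M * K) - 1 : ℤ))⁻¹ = a 2 ^ 2 := by
      simp only [ev_append, ev_winv, ev_cons_true, ev_cons_false, ev_nil, s1] at r2
      rw [← mul_inv_eq_one, ← r2]
      generalize a 1 ^ (2 ^ (M * K) - 1 : ℤ) = g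
      group
    have hc := comm_conj r2' j
    rw [← zpow_mul, ← hj, ← s2] at hc
    obtain ⟨z0, z1, z2, z3⟩ := miller_four a _ _ m3 m1 m2 m4 (by
      simp only [test, ev_cons_true, ev_cons_false, ev_nil]
      refine Eq.trans ?_ (commutatorElement_eq_one_iff_commute.2 hc)
      rw [commutatorElement_def]
      group)
    have y1 : a 1 = 1 := by
      rw [z0, one_mul, inv_one, mul_one, pow_two] at r1'
      exact left_eq_mul.1 r1'
    have y2 : a 2 = 1 := by
      rw [y1, one_zpow, one_mul, inv_one, mul_one, pow_two] at r2'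
      exact left_eq_mul.1 r2'
    have key : ∀ x < 3 + np M K ψ, a x = 1 := by
      intro x
      induction x using Nat.strong_induction_on with
      | _ x ih =>
        intro hx
        rcases Nat.lt_or_ge x 3 with h3 | h3
        · interval_cases x <;> assumption
        · obtain ⟨k, rfl⟩ := Nat.exists_eq_add_of_le h3
          rw [hd' k (by omega), ev_congr (b := fun _ => 1) (lt_dfn U M K ψ k)
            fun z hz => ih z hz (by omega)]
          simp [ev]
    intro x hx
    rcases Nat.lt_or_ge x (3 + np M K ψ) with h | h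
    · exact key x h
    · have : x = 3 + np M K ψ ∨ x = 3 + np M K ψ + 1 ∨ x = 3 + np M K ψ + 2 := by omega
      rcases this with rfl | rfl | rfl <;> assumption

end Pool.Agent.Lib.MP_4c90a8_lc.Two
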