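import Mathlib
import Pool.Agent.Lib.MP_4c90a8_lc.Main
import Pool.Agent.Lib.MP_4c90a8_lc.Two.Grp
import Pool.Agent.Shared.PolyTime

/-! The two-complex of a balanced presentation, in polynomial time. -/

namespace Pool.Agent.Lib.MP_4c90a8_lc.Two

set_option linter.unusedSectionVars false

open Pool.Agent.Shared.GroupUndec Pool.Agent.Shared.PolyTime N487b59b3

theorem L_iff {N : ℕ} {S : List Word} (hl : S.length = N) (hS : ∀ s ∈ S, ∀ c ∈ s, c.1 < N) :
    ContractibleSpace (real (cxL N S [])) ↔ Triv N S [] := by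
  constructor
  · intro _ G _ a h1 _
    have cη := stdG_cocy N [] fun _ => a
    generalize hη : (stdG fun _ => a) = η at cη
    have hg : gen η 0 = a := by rw [← hη, gen_stdG]
    obtain ⟨ωB, cB, hB⟩ := dmc_glue (rk := fun c => c.2.2) (simp_phiC (R := []) hS)
      (simp_phiP _ _) cη (cocy_one _)
      (cycle_cohom (cη.comap (simp_phiC hS)) (cocy_one _) fun j hj s hs => by
        obtain rfl : j = 0 := by simpa using hj
        rw [pp_phiC hS cη hj, pp_one _ fun _ _ => rfl, hg, List.getD_eq_getElem _ _ hs]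
        exact h1 _ (List.getElem_mem hs))
    obtain ⟨k, hk⟩ := cobd_of_contractible (K := cxL N S []) cB
    have e : ∀ u v, Adj (lam N []) u v → η u v = (k (in1 u))⁻¹ * k (in1 v) :=
      fun u v c => by rw [← hB]; exact hk _ _ (c.map simp_in1)
    intro x hx
    rw [← hg, gen, e _ _ (adj_1 (Nat.zero_le _) hx), e _ _ (adj_2 (Nat.zero_le _) hx),
      e _ _ (adj_3 (Nat.zero_le _) hx)]
    group
  · intro hT
    let z : real (cxL N S []) := vtx (adj_base N S [])
    refine (contractible_iff_id_nullhomotopic _).2 ⟨z, ?_⟩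
    refine L_null hS (surj_of_triv hl hT) z (ContinuousMap.id _) (Joined.refl _) ?_
    exact cobd_lam ((om_cocy z _).comap simp_in1) fun j hj =>
      hT _ _ (relators_of_cocy hS (om_cocy z _) hj) (by simp)

section relabel

variable {V : Type} [DecidableEq V]

/-- rename every vertex by the position of its first occurrence -/
def relab (K : List (List V)) : List (List ℕ) := K.map (List.map fun v => K.flatten.idxOf v)

theorem relab_iff [Inhabited V] (K : List (List V)) :
    ContractibleSpace (real (relab K)) ↔ ContractibleSpace (real K) := by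
  have hd : ∀ s ∈ K, ∀ v ∈ s, K.flatten.getD (K.flatten.idxOf v) default = v := fun s hs v hv => by
    have h : v ∈ K.flatten := List.mem_flatten.2 ⟨s, hs, hv⟩
    rw [List.getD_eq_getElem _ _ (List.idxOf_lt_length_iff.2 h), List.getElem_idxOf]
  have s1 : Simp (fun v => K.flatten.idxOf v) K (relab K) := fun s hs =>
    ⟨_, List.mem_map_of_mem hs, fun v hv => List.mem_map_of_mem hv⟩
  have s2 : Simp (fun n => K.flatten.getD n default) (relab K) K := fun t ht => by
    obtain ⟨s, hs, rfl⟩ := List.mem_map.1 ht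
    refine ⟨s, hs, fun n hn => ?_⟩
    obtain ⟨v, hv, rfl⟩ := List.mem_map.1 hn
    beta_reduce
    rw [hd s hs v hv]
    exact hv
  refine ContinuousMap.HomotopyEquiv.contractibleSpace_iff
    ⟨smap s2, smap s1, lin_homotopic _ _ fun y => ?_, lin_homotopic _ _ fun y => ?_⟩
  · obtain ⟨t, ht, hy⟩ := y.2
    refine ⟨t, ht, smap_mem s1 _ fun w hw => ?_, hy⟩
    obtain ⟨n, hn, rfl⟩ := smap_ne _ _ hw
    obtain ⟨s, hs, rfl⟩ := List.mem_map.1 ht
    have := cell_supp hy hn
    obtain ⟨v, hv, rfl⟩ := List.mem_map.1 this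
    rw [hd s hs v hv]
    exact List.mem_map_of_mem hv
  · obtain ⟨t, ht, hy⟩ := y.2
    refine ⟨t, ht, smap_mem s2 _ fun w hw => ?_, hy⟩
    obtain ⟨n, hn, rfl⟩ := smap_ne _ _ hw
    rw [hd t ht n (cell_supp hy hn)]
    exact cell_supp hy hn

theorem dim_relab {K : List (List V)} {n : ℕ} (h : Dim n K) : Dim n (relab K) := fun t ht => by
  obtain ⟨s, hs, rfl⟩ := List.mem_map.1 ht
  exact (card_map_le _ _).trans (h s hs)

end relabel

/-- increasing lists of at most three vertices of `s` -/
def faces (s : List ℕ) : List (List ℕ) :=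
  s.map (fun u => [u]) ++
    ((s.flatMap fun u => (s.filter fun v => decide (u < v)).map fun v => [u, v]) ++
    s.flatMap fun u => (s.filter fun v => decide (u < v)).flatMap fun v =>
      (s.filter fun w => decide (v < w)).map fun w => [u, v, w])

theorem mem_faces {s t : List ℕ} : t ∈ faces s ↔
    t ≠ [] ∧ t.Pairwise (· < ·) ∧ t.length ≤ 3 ∧ ∀ v ∈ t, v ∈ s := by
  simp only [faces, List.mem_append, List.mem_map, List.mem_flatMap, List.mem_filter,
    decide_eq_true_eq]
  constructor
  · rintro (⟨u, hu, rfl⟩ | ⟨u, hu, v, ⟨hv, h⟩, rfl⟩ | ⟨u, hu, v, ⟨hv, h⟩, w, ⟨hw, h'⟩, rfl⟩)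
    · simpa using hu
    · simp [hu, hv, h]
    · simp [hu, hv, hw, h, h', h.trans h']
  · rintro ⟨h1, h2, h3, h4⟩
    rcases t with _ | ⟨u, _ | ⟨v, _ | ⟨w, _ | ⟨x, t⟩⟩⟩⟩
    · exact absurd rfl h1
    · exact Or.inl ⟨u, h4 u (by simp), rfl⟩
    · exact Or.inr (Or.inl ⟨u, h4 u (by simp), v, ⟨h4 v (by simp), by simpa using h2⟩, rfl⟩)
    · simp only [List.pairwise_cons, List.mem_cons, forall_eq_or_imp] at h2
      exact Or.inr (Or.inr ⟨u, h4 u (by simp), v, ⟨h4 v (by simp), h2.1.1⟩, w,
        ⟨h4 w (by simp), h2.2.1.1⟩, rfl⟩)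
    · simp only [List.length_cons] at h3
      omega

/-- all faces -/
def allFaces (K : List (List ℕ)) : List (List ℕ) := K.flatMap faces

theorem allFaces_ok (K : List (List ℕ)) : ∀ s ∈ allFaces K,
    s ≠ [] ∧ s.Pairwise (· < ·) ∧ s.length ≤ 3 ∧ ∀ t, t.Sublist s → t ≠ [] → t ∈ allFaces K := by
  intro s hs
  obtain ⟨r, hr, hs⟩ := List.mem_flatMap.1 hs
  obtain ⟨h1, h2, h3, h4⟩ := mem_faces.1 hs
  exact ⟨h1, h2, h3, fun t ht hne => List.mem_flatMap.2 ⟨r, hr, mem_faces.2
    ⟨hne, h2.sublist ht, ht.length_le.trans h3, fun v hv => h4 v (ht.subset hv)⟩⟩⟩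

theorem real_allFaces {K : List (List ℕ)} (h : Dim 3 K) : real (allFaces K) = real K := by
  ext x
  constructor
  · rintro ⟨t, ht, hx⟩
    obtain ⟨s, hs, ht⟩ := List.mem_flatMap.1 ht
    exact ⟨s, hs, cell_mono hx fun v hv => (mem_faces.1 ht).2.2.2 v (cell_supp hx hv)⟩
  · rintro ⟨s, hs, hx⟩
    obtain ⟨v, hv, -⟩ := cell_exists hx
    refine ⟨s.toFinset.sort (· ≤ ·), List.mem_flatMap.2 ⟨s, hs, mem_faces.2
      ⟨List.ne_nil_of_mem (a := v) (by simpa using hv), (Finset.sortedLT_sort _).pairwise,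
        by simpa using h s hs, fun w hw => by simpa using hw⟩⟩,
      cell_mono hx fun w hw => by simpa using cell_supp hx hw⟩

/-- sums are encoded as pairs of lists -/
@[instance_reducible] def encSum {α β : Type} [N487b59b3 α] [N487b59b3 β] : N487b59b3 (α ⊕ β) :=
  ofLeftInverse (β := List α × List β) (Sum.elim (fun a => ([a], [])) fun b => ([], [b]))
    (fun p => (p.1.head?.map Sum.inl).or (p.2.head?.map Sum.inr)) (fun o => by cases o <;> rfl)

attribute [local instance] encSum

section pt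

variable {α A B C V : Type} [N487b59b3 α] [N487b59b3 A] [N487b59b3 B] [N487b59b3 C] [N487b59b3 V]

@[fun_prop] theorem pt_inl {f : α → A} (hf : PT f) : PT (fun x => (Sum.inl (f x) : A ⊕ B)) :=
  ((hf.cons (PT.const [])).pair (PT.const ([] : List B))).of_enc fun _ => rfl

@[fun_prop] theorem pt_inr {f : α → B} (hf : PT f) : PT (fun x => (Sum.inr (f x) : A ⊕ B)) :=
  ((PT.const ([] : List A)).pair (hf.cons (PT.const []))).of_enc fun _ => rfl

variable [DecidableEq A] [DecidableEq B] [DecidableEq C] [DecidableEq V]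

theorem pt_half {rk : A → ℕ} (hrk : PT rk) {L : α → List (List A)} (hL : PT L)
    {K : α → List (List B)} (hK : PT K) {ι : A → V} (hι : PT ι) {κ : B → V}
    (hκ : PT κ) {φ : α → A → B} (hφ : PT fun p : α × A => φ p.1 p.2) :
    PT fun x => half rk (L x) (K x) ι κ (φ x) := by
  unfold half facet
  fun_prop

theorem pt_relab {K : α → List (List V)} (hK : PT K) : PT fun x => relab (K x) := by
  unfold relab; fun_prop

theorem pt_allFaces {K : α → List (List ℕ)} (hK : PT K) : PT fun x => allFaces (K x) := by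
  unfold allFaces faces; fun_prop

theorem pt_cxL {N : α → ℕ} (hN : PT N) (bN : PB N) {S : α → List Word} (hS : PT S) :
    PT fun x => cxL (N x) (S x) [] := by
  have h1 : PT fun x => cycles 0 (S x) := by
    unfold cycles pathCx cyc; fun_prop
  have h2 : PT fun x => lam (N x) [] := by
    have : PT fun x => wedge (N x) 0 := by unfold wedge; fun_prop
    exact this.of_eq fun x => by simp [lam]
  have h3 : PT fun x => apexes 0 (S x).length := by unfold apexes; fun_prop
  have h4 : PT fun p : α × CV => phiC (S p.1) p.2 := by unfold phiC pos; fun_prop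
  have h5 : PT fun p : α × CV => phiP p.2 := by unfold phiP; fun_prop
  exact PT.append (pt_half (by fun_prop) h1 h2 (by fun_prop) (by unfold in1; fun_prop) h4)
    (pt_half (φ := fun _ => phiP) (by fun_prop) h1 h3 (by fun_prop) (by unfold in2; fun_prop) h5)

end pt

/-- The simplicial two-complex of a presentation. -/
def cx2 (N : ℕ) (S : List Word) : List (List ℕ) := allFaces (relab (cxL N S []))

theorem pt_cx2 {α : Type} [N487b59b3 α] {N : α → ℕ} (hN : PT N) (bN : PB N)
    {S : α → List Word} (hS : PT S) : PT fun x => cx2 (N x) (S x) :=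
  pt_allFaces (pt_relab (pt_cxL hN bN hS))

theorem cx2_iff {N : ℕ} {S : List Word} (hl : S.length = N) (hS : ∀ s ∈ S, ∀ c ∈ s, c.1 < N) :
    ContractibleSpace (real (cx2 N S)) ↔ Triv N S [] := by
  rw [cx2, real_allFaces (dim_relab (dim_cxL N S [])), relab_iff, L_iff hl hS]

end Pool.Agent.Lib.MP_4c90a8_lc.Two
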