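import Mathlib
import Pool.Agent.Lib.MP_4c90a8_lc.Two.Red
import Pool.Agent.Lib.MP_4c90a8_lc.Two.Top

/-! The reduction runs in polynomial time and is correct. -/

namespace Pool.Agent.Lib.MP_4c90a8_lc.Two

open Pool.Agent.Shared.GroupUndec Pool.Agent.Shared.PolyTime Pool.Agent.Shared.CookLevin
  N487b59b3

/-- the primes below `X` -/
def ps (X : ℕ) : List ℕ := (List.range X).filter fun p => decide (2 ≤ p) &&
  (List.range X).all fun d => decide (d < 2) || (decide (p ≤ d) || p % d != 0)

/-- the primes below `X`, in unary -/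
def us (X : ℕ) : List (List ℕ) := (ps X).map fun p => (List.range X).take p

theorem mem_ps {X p : ℕ} : p ∈ ps X ↔ p < X ∧ p.Prime := by
  simp only [ps, List.mem_filter, List.mem_range, Bool.and_eq_true, decide_eq_true_eq,
    List.all_eq_true, Bool.or_eq_true, bne_iff_ne, Nat.prime_def_lt']
  refine and_congr_right fun hp => and_congr_right fun _ => ⟨fun h m h1 h2 h3 => ?_, fun h m _ => ?_⟩
  · have := h m (by omega)
    have := Nat.mod_eq_zero_of_dvd h3
    omega
  · by_contra hc
    push Not at hc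
    exact h m hc.1 hc.2.1 (Nat.dvd_of_mod_eq_zero hc.2.2)

theorem ps_nodup (X : ℕ) : (ps X).Nodup := List.nodup_range.filter _

theorem ps_length (n : ℕ) : n ≤ (ps (2 * (n + 2) ^ 2 + 1)).length := by
  refine (many_primes n).trans (le_of_eq ?_)
  rw [← List.toFinset_card_of_nodup (ps_nodup _)]
  congr 1
  ext p
  simp [mem_ps]

theorem qq_us {X v : ℕ} (h : v < (ps X).length) : qq (us X) v = (ps X)[v] := by
  have := (mem_ps.1 (List.getElem_mem h)).1
  rw [qq, List.getD_eq_getElem _ _ (by simpa [us] using h)]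
  simp only [us, List.getElem_map, List.length_take, List.length_range]
  omega

/-- product of the moduli -/
def kk (U : List (List ℕ)) (n : ℕ) : ℕ := ((List.range n).map (qq U)).prod
/-- the exponent of the base -/
def mm (U : List (List ℕ)) (ψ : List Cl) : ℕ := (ψ.map (Qc (qq U))).prod + 1

/-- The complex of a formula with `n` variables, given the moduli. -/
def cxOf (U : List (List ℕ)) (n : ℕ) (ψ : List Cl) : List (List ℕ) :=
  cx2 (3 + np (mm U ψ) (kk U n) ψ + 3) (rels U (mm U ψ) (kk U n) ψ)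

/-- The reduction. -/
def red (φ : List Cl) : List (List ℕ) :=
  cxOf (us (2 * (3 * φ.length + 2) ^ 2 + 1)) (3 * φ.length) (taut (3 * φ.length) ++ φ)

theorem red_iff (φ : List Cl)
    (hv : ∀ C ∈ φ, C.1.2 < 3 * φ.length ∧ C.2.1.2 < 3 * φ.length ∧ C.2.2.2 < 3 * φ.length) :
    ContractibleSpace (real (red φ)) ↔ ¬ Sat3 φ := by
  unfold red cxOf
  generalize 3 * φ.length = n at hv ⊢
  have hl := ps_length n
  generalize 2 * (n + 2) ^ 2 + 1 = X at hl ⊢
  have hp : ∀ v < n, (qq (us X) v).Prime := fun v hv => by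
    rw [qq_us (by omega)]; exact (mem_ps.1 (List.getElem_mem _)).2
  have hi : ∀ v < n, ∀ w < n, qq (us X) v = qq (us X) w → v = w := fun v hv w hw e => by
    rw [qq_us (by omega), qq_us (by omega)] at e
    exact (ps_nodup X).getElem_inj_iff.1 e
  generalize us X = U at hp hi ⊢
  have hK : kk U n = ∏ v ∈ Finset.range n, qq U v := by
    rw [kk, ← List.prod_toFinset _ List.nodup_range, List.toFinset_range]
  have hK0 : 0 < kk U n := hK ▸ Finset.prod_pos fun v hv => (hp v (Finset.mem_range.1 hv)).pos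
  have hM0 : 0 < mm U (taut n ++ φ) := Nat.succ_pos _
  rw [cx2_iff (rels_length _ _ _ _) (lt_rels _ _ _ _), triv_iff U _ _ _ (Nat.mul_pos hM0 hK0)]
  constructor
  · rintro h ⟨τ, hτ⟩
    refine not_dvd_of_sat (qq U) n _ _ hp hi hK (taut n ++ φ) (fun C hC => ?_)
      ⟨τ, fun C hC => ?_⟩ (Nat.lt_succ_self _) h
    · rcases List.mem_append.1 hC with hC | hC
      · obtain ⟨v, hv, rfl⟩ := List.mem_map.1 hC
        have := List.mem_range.1 hv
        exact ⟨this, this, this⟩
      · exact hv C hC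
    · rcases List.mem_append.1 hC with hC | hC
      · obtain ⟨v, -, rfl⟩ := List.mem_map.1 hC
        cases h : τ v <;> simp
      · exact hτ C hC
  · intro h
    refine dvd_of_unsat (qq U) (fun v => mm U (taut n ++ φ) * (kk U n / qq U v)) n _
      (fun v hv => ?_) φ hv h
    rw [mul_assoc, Nat.div_mul_cancel]
    rw [hK]
    exact Finset.dvd_prod_of_mem _ (Finset.mem_range.2 hv)

section pt

variable {α : Type} [N487b59b3 α]

@[fun_prop] theorem pt_prod {l : α → List ℕ} (hl : PT l) : PT (fun a => (l a).prod) := by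
  obtain ⟨g, hg, hb⟩ := PT.bound_mem (h := fun _ x => x) (by fun_prop) hl
  have := PT.foldl_grow (f := fun _ (s : ℕ) x => s * x) (s0 := fun _ => 1) (by fun_prop) hl
    (by fun_prop) (g := g) hg
    (fun a s x hx => (sz_mul_le s x).trans (Nat.add_le_add_left (hb a x hx) _))
  exact this.of_eq fun a => List.prod_eq_foldl.symm

@[fun_prop] theorem pt_winv {w : α → Word} (hw : PT w) : PT (fun a => winv (w a)) := by
  unfold winv; fun_prop

@[fun_prop] theorem pt_pw {r : α → List ℕ} {w : α → Word} (hr : PT r) (hw : PT w) :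
    PT (fun a => pw (r a) (w a)) := by
  unfold pw; fun_prop

@[fun_prop] theorem pt_tw {E : α → ℕ} (hE : PT E) : PT (fun a => tw (E a)) := by
  unfold tw; fun_prop

@[fun_prop] theorem pt_qq {U : α → List (List ℕ)} {v : α → ℕ} (hU : PT U) (hv : PT v) :
    PT (fun a => qq (U a) (v a)) := by
  unfold qq; fun_prop

@[fun_prop] theorem pt_fw {U : α → List (List ℕ)} {M K : α → ℕ} {l : α → Bool × ℕ} {w : α → Word}
    (hU : PT U) (hM : PT M) (hK : PT K) (hl : PT l) (hw : PT w) :
    PT (fun a => fw (U a) (M a) (K a) (l a) (w a)) := by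
  unfold fw geo; fun_prop

@[fun_prop] theorem pt_cw {U : α → List (List ℕ)} {M K : α → ℕ} {C : α → Cl} {w : α → Word}
    (hU : PT U) (hM : PT M) (hK : PT K) (hC : PT C) (hw : PT w) :
    PT (fun a => cw (U a) (M a) (K a) (C a) (w a)) := by
  unfold cw; fun_prop

@[fun_prop] theorem pt_dfn {U : α → List (List ℕ)} {M K k : α → ℕ} {ψ : α → List Cl}
    (hU : PT U) (hM : PT M) (hK : PT K) (hψ : PT ψ) (hk : PT k) :
    PT (fun a => dfn (U a) (M a) (K a) (ψ a) (k a)) := by
  unfold dfn; fun_prop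

theorem pt_rels {U : α → List (List ℕ)} {M K : α → ℕ} {ψ : α → List Cl}
    (hU : PT U) (hM : PT M) (hK : PT K) (hψ : PT ψ) :
    PT (fun a => rels (U a) (M a) (K a) (ψ a)) := by
  have h1 : PT fun a => np (M a) (K a) (ψ a) := by unfold np; fun_prop
  have h2 : PB fun a => np (M a) (K a) (ψ a) := by unfold np; fun_prop
  unfold rels sig1 sig2 sig3 sig4 cj test dw
  fun_prop

theorem pt_cxOf {U : α → List (List ℕ)} {n : α → ℕ} {ψ : α → List Cl}
    (hU : PT U) (hn : PT n) (bn : PB n) (hψ : PT ψ) : PT (fun a => cxOf (U a) (n a) (ψ a)) := by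
  have hM : PT fun a => mm (U a) (ψ a) := by unfold mm Qc; fun_prop
  have hK : PT fun a => kk (U a) (n a) := by unfold kk; fun_prop
  exact pt_cx2 (by unfold np; fun_prop) (by unfold np; fun_prop) (pt_rels hU hM hK hψ)

theorem pt_us' {r : α → List ℕ} (hr : PT r) : PT (fun a => ((r a).filter fun p => decide (2 ≤ p) &&
    (r a).all fun d => decide (d < 2) || (decide (p ≤ d) || p % d != 0)).map
      fun p => (r a).take p) := by
  fun_prop

theorem pt_us {X : α → ℕ} (hX : PT X) (bX : PB X) : PT (fun a => us (X a)) :=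
  pt_us' (PT.range hX bX)

theorem pt_red {φ : α → List Cl} (hφ : PT φ) : PT (fun a => red (φ a)) :=
  pt_cxOf (pt_us (by fun_prop) (by fun_prop)) (by fun_prop) (by fun_prop)
    (by unfold taut; fun_prop)

end pt

theorem red_ok (φ : List Cl) : ∀ s ∈ red φ,
    s ≠ [] ∧ s.Pairwise (· < ·) ∧ s.length ≤ 3 ∧ ∀ t, t.Sublist s → t ≠ [] → t ∈ red φ :=
  allFaces_ok _

end Pool.Agent.Lib.MP_4c90a8_lc.Two
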